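import Mathlib

/-!
# AutF2-central: a conjugation-invariant homomorphism on a normal subgroup of finite index which
vanishes on the powers of generators is zero
-/

set_option autoImplicit false

namespace Pool.Agent.Helper79.AutF

theorem central_hom_zero {Δ : Type*} [Group Δ] (K : Subgroup Δ) [K.Normal] (hK : K.index ≠ 0)
    (χ : Δ → ℚ) (hmul : ∀ a ∈ K, ∀ b ∈ K, χ (a * b) = χ a + χ b)
    (hconj : ∀ u : Δ, ∀ h ∈ K, χ (u * h * u⁻¹) = χ h)
    (gens : Set Δ) (hgen : Subgroup.closure gens = ⊤)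
    (hg : ∀ x ∈ gens, ∀ N : ℕ, x ^ N ∈ K → χ (x ^ N) = 0) : ∀ h ∈ K, χ h = 0 := by
  have h1 : χ 1 = 0 := by
    have := hmul 1 K.one_mem 1 K.one_mem
    rw [mul_one] at this
    linarith
  have hinv : ∀ a ∈ K, χ a⁻¹ = - χ a := by
    intro a ha
    have := hmul a ha a⁻¹ (K.inv_mem ha)
    rw [mul_inv_cancel, h1] at this
    linarith
  have hpow : ∀ a ∈ K, ∀ n : ℕ, χ (a ^ n) = n * χ a := by
    intro a ha n
    induction n with
    | zero => simp [h1]
    | succ n ih =>
      rw [pow_succ, hmul _ (K.pow_mem ha n) a ha, ih]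
      push_cast
      ring
  let L : Subgroup Δ :=
    { carrier := {h | h ∈ K ∧ χ h = 0}
      mul_mem' := fun {a b} ha hb => ⟨K.mul_mem ha.1 hb.1, by
        rw [hmul a ha.1 b hb.1, ha.2, hb.2, add_zero]⟩
      one_mem' := ⟨K.one_mem, h1⟩
      inv_mem' := fun {a} ha => ⟨K.inv_mem ha.1, by rw [hinv a ha.1, ha.2, neg_zero]⟩ }
  have hLmem : ∀ h, h ∈ L ↔ h ∈ K ∧ χ h = 0 := fun h => Iff.rfl
  have hLn : L.Normal := ⟨fun a ha u => ⟨‹K.Normal›.conj_mem a ha.1 u, by
    rw [hconj u a ha.1]; exact ha.2⟩⟩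
  -- the image of `K` is central
  have hcen : K.map (QuotientGroup.mk' L) ≤ Subgroup.center (Δ ⧸ L) := by
    rintro _ ⟨k, hk, rfl⟩
    rw [Subgroup.mem_center_iff]
    intro g
    obtain ⟨u, rfl⟩ := QuotientGroup.mk'_surjective L g
    rw [← map_mul, ← map_mul]
    apply (QuotientGroup.eq).2
    change (u * k)⁻¹ * (k * u) ∈ L
    have hkk : u⁻¹ * k * u ∈ K := by
      have := ‹K.Normal›.conj_mem k hk u⁻¹
      rwa [inv_inv] at this
    have e : (u * k)⁻¹ * (k * u) = k⁻¹ * (u⁻¹ * k * u) := by group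
    rw [e, hLmem]
    refine ⟨K.mul_mem (K.inv_mem hk) hkk, ?_⟩
    rw [hmul _ (K.inv_mem hk) _ hkk, hinv k hk]
    have := hconj u⁻¹ k hk
    rw [inv_inv] at this
    rw [this]
    ring
  have hfi : (Subgroup.center (Δ ⧸ L)).FiniteIndex := by
    refine ⟨fun h0 => ?_⟩
    have d1 : (Subgroup.center (Δ ⧸ L)).index ∣ (K.map (QuotientGroup.mk' L)).index :=
      Subgroup.index_dvd_of_le hcen
    have d2 : (K.map (QuotientGroup.mk' L)).index ∣ K.index :=
      Subgroup.index_map_dvd K (QuotientGroup.mk'_surjective L)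
    have d3 := d1.trans d2
    rw [h0] at d3
    exact hK (Nat.eq_zero_of_zero_dvd d3)
  set e : ℕ := (Subgroup.center (Δ ⧸ L)).index with he
  have he0 : e ≠ 0 := hfi.index_ne_zero
  let φ := MonoidHom.transferCenterPow (Δ ⧸ L)
  have hφ : ∀ g, ((φ g : Subgroup.center (Δ ⧸ L)) : Δ ⧸ L) = g ^ e := fun g => rfl
  -- the set of the elements with `φ g ^ N = 1`
  have hker : ∀ g : Δ, (φ (QuotientGroup.mk' L g)) ^ K.index = 1 := by
    intro g
    have hgt : g ∈ Subgroup.closure gens := by rw [hgen]; trivial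
    induction hgt using Subgroup.closure_induction with
    | mem x hx =>
      rw [← map_pow, ← map_pow]
      have hxK : x ^ K.index ∈ K := Subgroup.pow_index_mem K x
      have hxL : x ^ K.index ∈ L := ⟨hxK, hg x hx _ hxK⟩
      have : QuotientGroup.mk' L (x ^ K.index) = 1 := (QuotientGroup.eq_one_iff _).2 hxL
      rw [this, map_one]
    | one => simp
    | mul x y _ _ hx hy =>
      rw [map_mul, map_mul]
      have hc : Commute (φ (QuotientGroup.mk' L x)) (φ (QuotientGroup.mk' L y)) :=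
        Subtype.ext (Subgroup.mem_center_iff.1 (φ (QuotientGroup.mk' L y)).2 _)
      rw [hc.mul_pow, hx, hy, mul_one]
    | inv x _ hx =>
      rw [map_inv, map_inv, inv_pow, hx, inv_one]
  intro h hh
  have h2 := hker h
  have h3 : (QuotientGroup.mk' L h) ^ (e * K.index) = 1 := by
    have := congrArg Subtype.val h2
    rw [SubmonoidClass.coe_pow, hφ, ← pow_mul] at this
    exact this
  rw [← map_pow] at h3
  have h4 : h ^ (e * K.index) ∈ L := (QuotientGroup.eq_one_iff _).1 h3
  have h5 := h4.2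
  rw [hpow h hh] at h5
  rcases mul_eq_zero.1 h5 with h6 | h6
  · exfalso
    have h7 : e * K.index = 0 := by exact_mod_cast h6
    rcases Nat.mul_eq_zero.1 h7 with h8 | h8
    · exact he0 h8
    · exact hK h8
  · exact h6

end Pool.Agent.Helper79.AutF
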