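import Mathlib
import Pool.Agent.Helper42.AutF.Kolchin

/-!
# AutF2-unip: the group generated by a unipotent group and a commutative unipotent group
which normalises it is unipotent
-/

set_option autoImplicit false

namespace Pool.Agent.Helper79.AutF

open Matrix

/-- a commutative group generated by unipotent matrices consists of unipotent matrices -/
private theorem comm_unip {m : ℕ} {τ : Type*}
    (b : τ → GL (Fin m) ℚ) (hb : ∀ t, IsNilpotent ((b t : Matrix (Fin m) (Fin m) ℚ) - 1))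
    (hbc : ∀ s t, b s * b t = b t * b s) :
    ∀ c ∈ Subgroup.closure (Set.range b), IsNilpotent ((c : Matrix (Fin m) (Fin m) ℚ) - 1) := by
  have hcomm : ∀ x ∈ Subgroup.closure (Set.range b), ∀ y ∈ Subgroup.closure (Set.range b),
      x * y = y * x := by
    have h1 : Subgroup.closure (Set.range b) ≤ Subgroup.centralizer (Set.range b) := by
      rw [Subgroup.closure_le]
      rintro _ ⟨t, rfl⟩
      rw [SetLike.mem_coe, Subgroup.mem_centralizer_iff]
      rintro _ ⟨s, rfl⟩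
      exact hbc s t
    intro x hx y hy
    have h2 := Subgroup.closure_le_centralizer_centralizer (Set.range b) hx
    rw [Subgroup.mem_centralizer_iff] at h2
    exact (h2 y (h1 hy)).symm
  have hcm : ∀ x ∈ Subgroup.closure (Set.range b), ∀ y ∈ Subgroup.closure (Set.range b),
      Commute (x : Matrix (Fin m) (Fin m) ℚ) (y : Matrix (Fin m) (Fin m) ℚ) := by
    intro x hx y hy
    have := congrArg Units.val (hcomm x hx y hy)
    rwa [Units.val_mul, Units.val_mul] at this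
  intro c hc
  induction hc using Subgroup.closure_induction with
  | mem x hx =>
    obtain ⟨t, rfl⟩ := hx
    exact hb t
  | one => simp
  | mul x y hx hy ihx ihy =>
    have hxy := hcm x hx y hy
    have e : ((x * y : GL (Fin m) ℚ) : Matrix (Fin m) (Fin m) ℚ) - 1 =
        ((x : Matrix (Fin m) (Fin m) ℚ) - 1) * (y : Matrix (Fin m) (Fin m) ℚ) +
          ((y : Matrix (Fin m) (Fin m) ℚ) - 1) := by
      rw [Units.val_mul]
      noncomm_ring
    rw [e]
    have c1 : Commute ((x : Matrix (Fin m) (Fin m) ℚ) - 1) (y : Matrix (Fin m) (Fin m) ℚ) :=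
      hxy.sub_left (Commute.one_left _)
    have c2 : Commute (((x : Matrix (Fin m) (Fin m) ℚ) - 1) * (y : Matrix (Fin m) (Fin m) ℚ))
        ((y : Matrix (Fin m) (Fin m) ℚ) - 1) :=
      (c1.sub_right (Commute.one_right _)).mul_left
        ((Commute.refl _).sub_right (Commute.one_right _))
    exact c2.isNilpotent_add (c1.isNilpotent_mul_right ihx) ihy
  | inv x hx ih =>
    have hxx := hcm x⁻¹ ((Subgroup.closure (Set.range b)).inv_mem hx) x hx
    have e : ((x⁻¹ : GL (Fin m) ℚ) : Matrix (Fin m) (Fin m) ℚ) - 1 =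
        -(((x⁻¹ : GL (Fin m) ℚ) : Matrix (Fin m) (Fin m) ℚ) *
          ((x : Matrix (Fin m) (Fin m) ℚ) - 1)) := by
      rw [mul_sub, mul_one, Units.inv_mul, neg_sub]
    rw [e]
    have c1 : Commute ((x⁻¹ : GL (Fin m) ℚ) : Matrix (Fin m) (Fin m) ℚ)
        ((x : Matrix (Fin m) (Fin m) ℚ) - 1) := hxx.sub_right (Commute.one_right _)
    exact (c1.isNilpotent_mul_left ih).neg

/-- the vectors killed by all the products of `j` elements `u - 1` -/
private def W {m : ℕ} (U : Subgroup (GL (Fin m) ℚ)) (j : ℕ) (v : Fin m → ℚ) : Prop :=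
  ∀ L : List (Matrix (Fin m) (Fin m) ℚ), L.length = j →
    (∀ A ∈ L, ∃ u ∈ U, A = (u : Matrix (Fin m) (Fin m) ℚ) - 1) → L.prod *ᵥ v = 0

private theorem W_zero {m : ℕ} {U : Subgroup (GL (Fin m) ℚ)} {v : Fin m → ℚ} (h : W U 0 v) :
    v = 0 := by
  have := h [] rfl (by simp)
  simpa using this

private theorem W_add {m : ℕ} {U : Subgroup (GL (Fin m) ℚ)} {j : ℕ} {v w : Fin m → ℚ}
    (hv : W U j v) (hw : W U j w) : W U j (v + w) := by
  intro L h1 h2
  rw [mulVec_add, hv L h1 h2, hw L h1 h2, add_zero]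

private theorem W_sub {m : ℕ} {U : Subgroup (GL (Fin m) ℚ)} {j : ℕ} {v w : Fin m → ℚ}
    (hv : W U j v) (hw : W U j w) : W U j (v - w) := by
  intro L h1 h2
  rw [mulVec_sub, hv L h1 h2, hw L h1 h2, sub_zero]

private theorem W_step {m : ℕ} {U : Subgroup (GL (Fin m) ℚ)} {j : ℕ} {v : Fin m → ℚ}
    (hv : W U (j + 1) v) {u : GL (Fin m) ℚ} (hu : u ∈ U) :
    W U j (((u : Matrix (Fin m) (Fin m) ℚ) - 1) *ᵥ v) := by
  intro L h1 h2
  rw [mulVec_mulVec]
  have := hv (L ++ [(u : Matrix (Fin m) (Fin m) ℚ) - 1]) (by simp [h1]) (by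
    intro A hA
    rcases List.mem_append.1 hA with h | h
    · exact h2 A h
    · rw [List.mem_singleton] at h
      exact ⟨u, hu, h⟩)
  rw [List.prod_append, List.prod_singleton] at this
  exact this

private theorem W_conj {m : ℕ} {U : Subgroup (GL (Fin m) ℚ)} {c : GL (Fin m) ℚ}
    (hc : ∀ u ∈ U, c⁻¹ * u * c ∈ U) {j : ℕ} {v : Fin m → ℚ} (hv : W U j v) :
    W U j ((c : Matrix (Fin m) (Fin m) ℚ) *ᵥ v) := by
  intro L h1 h2
  rw [mulVec_mulVec]
  have key : ∀ L : List (Matrix (Fin m) (Fin m) ℚ),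
      L.prod * (c : Matrix (Fin m) (Fin m) ℚ) = (c : Matrix (Fin m) (Fin m) ℚ) *
        (L.map (fun A => ((c⁻¹ : GL (Fin m) ℚ) : Matrix (Fin m) (Fin m) ℚ) * A *
          (c : Matrix (Fin m) (Fin m) ℚ))).prod := by
    intro L
    induction L with
    | nil => simp
    | cons A L ih =>
      rw [List.prod_cons, mul_assoc, ih, List.map_cons, List.prod_cons]
      have e : (c : Matrix (Fin m) (Fin m) ℚ) *
          (((c⁻¹ : GL (Fin m) ℚ) : Matrix (Fin m) (Fin m) ℚ) * A *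
          (c : Matrix (Fin m) (Fin m) ℚ)) = A * (c : Matrix (Fin m) (Fin m) ℚ) := by
        rw [← mul_assoc, ← mul_assoc, Units.mul_inv, one_mul]
      rw [← mul_assoc (c : Matrix (Fin m) (Fin m) ℚ), e, mul_assoc]
  rw [key, ← mulVec_mulVec, hv _ (by simpa using h1) ?_, mulVec_zero]
  intro A hA
  obtain ⟨B, hB, rfl⟩ := List.mem_map.1 hA
  obtain ⟨u, hu, rfl⟩ := h2 B hB
  refine ⟨c⁻¹ * u * c, hc u hu, ?_⟩
  rw [Units.val_mul, Units.val_mul, mul_sub, mul_one, sub_mul, Units.inv_mul]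

theorem unip_ext {m : ℕ} (U : Subgroup (GL (Fin m) ℚ))
    (hU : ∀ u ∈ U, IsNilpotent ((u : Matrix (Fin m) (Fin m) ℚ) - 1)) {τ : Type*}
    (b : τ → GL (Fin m) ℚ) (hb : ∀ t, IsNilpotent ((b t : Matrix (Fin m) (Fin m) ℚ) - 1))
    (hbc : ∀ s t, b s * b t = b t * b s) (hn : ∀ t, ∀ u ∈ U, b t * u * (b t)⁻¹ ∈ U)
    (hn' : ∀ t, ∀ u ∈ U, (b t)⁻¹ * u * b t ∈ U) :
    ∀ u ∈ U ⊔ Subgroup.closure (Set.range b),
      IsNilpotent ((u : Matrix (Fin m) (Fin m) ℚ) - 1) := by
  have hle : Subgroup.closure (Set.range b) ≤ Subgroup.normalizer (U : Set (GL (Fin m) ℚ)) := by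
    rw [Subgroup.closure_le]
    rintro _ ⟨t, rfl⟩
    rw [SetLike.mem_coe, Subgroup.mem_normalizer_iff]
    intro h
    refine ⟨fun hh => hn t h hh, fun hh => ?_⟩
    have := hn' t _ hh
    have e : (b t)⁻¹ * (b t * h * (b t)⁻¹) * b t = h := by group
    rwa [e] at this
  intro g hg
  have hg' : g ∈ ((U ⊔ Subgroup.closure (Set.range b) : Subgroup (GL (Fin m) ℚ)) :
    Set (GL (Fin m) ℚ)) := hg
  rw [Subgroup.coe_mul_of_right_le_normalizer_left _ _ hle] at hg'
  obtain ⟨u, hu, c, hc, rfl⟩ := Set.mem_mul.1 hg'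
  rw [SetLike.mem_coe] at hu hc
  have hcU : ∀ x ∈ U, c⁻¹ * x * c ∈ U := by
    intro x hx
    have h1 := (Subgroup.mem_normalizer_iff.1 (hle hc)) (c⁻¹ * x * c)
    rw [h1]
    have e : c * (c⁻¹ * x * c) * c⁻¹ = x := by group
    rw [e]
    exact hx
  have huU : ∀ x ∈ U, u⁻¹ * x * u ∈ U := fun x hx => U.mul_mem (U.mul_mem (U.inv_mem hu) hx) hu
  obtain ⟨n, hn0⟩ := comm_unip b hb hbc c hc
  obtain ⟨K, hK⟩ := Pool.Agent.Helper42.AutF.M2 U hU
  set G : Matrix (Fin m) (Fin m) ℚ := ((u * c : GL (Fin m) ℚ) : Matrix (Fin m) (Fin m) ℚ) - 1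
    with hG
  have hGe : G = ((u : Matrix (Fin m) (Fin m) ℚ) - 1) * (c : Matrix (Fin m) (Fin m) ℚ) +
      ((c : Matrix (Fin m) (Fin m) ℚ) - 1) := by
    rw [hG, Units.val_mul]
    noncomm_ring
  have hGW : ∀ j v, W U j v → W U j (G *ᵥ v) := by
    intro j v hv
    rw [hG, sub_mulVec, Units.val_mul, ← mulVec_mulVec, one_mulVec]
    exact W_sub (W_conj huU (W_conj hcU hv)) hv
  have hcW : ∀ s j v, W U j v → W U j ((((c : Matrix (Fin m) (Fin m) ℚ) - 1) ^ s) *ᵥ v) := by
    intro s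
    induction s with
    | zero => intro j v hv; simpa using hv
    | succ s ih =>
      intro j v hv
      rw [pow_succ', ← mulVec_mulVec, sub_mulVec, one_mulVec]
      exact W_sub (W_conj hcU (ih j v hv)) (ih j v hv)
  have hstep : ∀ s j v, W U (j + 1) v →
      W U j ((G ^ s) *ᵥ v - (((c : Matrix (Fin m) (Fin m) ℚ) - 1) ^ s) *ᵥ v) := by
    intro s
    induction s with
    | zero =>
      intro j v _
      rw [pow_zero, pow_zero, sub_self]
      intro L _ _
      exact mulVec_zero _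
    | succ s ih =>
      intro j v hv
      have e : (G ^ (s + 1)) *ᵥ v - (((c : Matrix (Fin m) (Fin m) ℚ) - 1) ^ (s + 1)) *ᵥ v =
          G *ᵥ ((G ^ s) *ᵥ v - (((c : Matrix (Fin m) (Fin m) ℚ) - 1) ^ s) *ᵥ v) +
          ((u : Matrix (Fin m) (Fin m) ℚ) - 1) *ᵥ ((c : Matrix (Fin m) (Fin m) ℚ) *ᵥ
            ((((c : Matrix (Fin m) (Fin m) ℚ) - 1) ^ s) *ᵥ v)) := by
        rw [mulVec_sub, mulVec_mulVec, mulVec_mulVec, mulVec_mulVec, mulVec_mulVec,
          ← sub_mulVec, ← sub_mulVec, ← add_mulVec, pow_succ', pow_succ']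
        congr 1
        rw [hGe]
        noncomm_ring
      rw [e]
      exact W_add (hGW j _ (ih j v hv)) (W_step (W_conj hcU (hcW s (j + 1) v hv)) hu)
  have hdown : ∀ j v, W U (j + 1) v → W U j ((G ^ n) *ᵥ v) := by
    intro j v hv
    have := hstep n j v hv
    rwa [hn0, zero_mulVec, sub_zero] at this
  have hfin : ∀ j v, W U j v → (G ^ (n * j)) *ᵥ v = 0 := by
    intro j
    induction j with
    | zero => intro v hv; rw [W_zero hv, mulVec_zero]
    | succ j ih =>
      intro v hv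
      rw [mul_add, mul_one, pow_add, ← mulVec_mulVec]
      exact ih _ (hdown j v hv)
  refine ⟨n * K, ?_⟩
  apply Matrix.mulVec_injective
  funext v
  rw [zero_mulVec]
  refine hfin K v ?_
  intro L h1 h2
  rw [hK L h1 h2, zero_mulVec]

end Pool.Agent.Helper79.AutF
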